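import Pool.Agent.Helper29.AR.Props
import Pool.Agent.Helper93.SR.MatSR

/-!
# MP_b55b7c_an, packet AR-MatASR: approximate stable rank one passes to matrices
-/

open scoped ENNReal NNReal InnerProductSpace ComplexOrder
open Filter Topology

attribute [-instance] CStarMatrix.instAlgebra CStarMatrix.instModule CStarMatrix.instSMul
  CStarMatrix.instMulAction CStarMatrix.instDistribMulAction

set_option linter.unusedSectionVars false

noncomputable section
namespace RC
universe u
namespace H51AR

/-- The algebra of the induction step. -/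
theorem step {D : Type*} [Ring D] (p e y T b0 L c c' k ad bd : D) (hp : p * p = p)
    (he : e * e = e) (hpe : p * e = 0) (hep : e * p = 0)
    (hU : T * (p * y * p + (1 - p)) + b0 * L = 1)
    (hc : c = e * (y - y * (T * p * y + b0 * L)) * e)
    (hc' : e * c' = c') (hc'e : c' * e = c')
    (h1 : ad * c' + bd * k = e) :
    ∃ A B B' : D, A * ((p + e) * (y + (c' - c)) * (p + e) + (1 - (p + e))) + B * L + B' * k = 1 := by
  obtain ⟨W, hW⟩ : ∃ W, W = (p + e) * (y + (c' - c)) * (p + e) + (1 - (p + e)) := ⟨_, rfl⟩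
  rw [← hW]
  let I : Ideal D := Ideal.span {W, L, k}
  have hWI : W ∈ I := Ideal.subset_span (by simp)
  have hLI : L ∈ I := Ideal.subset_span (by simp)
  have hkI : k ∈ I := Ideal.subset_span (by simp)
  have hqq : (p + e) * (p + e) = p + e := by
    have : (p + e) * (p + e) = p * p + p * e + e * p + e * e := by noncomm_ring
    rw [this, hp, hpe, hep, he]; abel
  have hpq : p * (p + e) = p := by rw [mul_add, hp, hpe, add_zero]
  have heq : e * (p + e) = e := by rw [mul_add, hep, he, zero_add]
  have hpc' : p * c' = 0 := by rw [← hc', ← mul_assoc, hpe, zero_mul]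
  have hc'p : c' * p = 0 := by rw [← hc'e, mul_assoc, hep, mul_zero]
  have hpc : p * c = 0 := by
    rw [hc, ← mul_assoc, ← mul_assoc, hpe]; simp
  have hcp : c * p = 0 := by
    rw [hc, mul_assoc, hep]; simp
  have hec : e * c = c := by
    rw [hc]
    have : e * (e * (y - y * (T * p * y + b0 * L)) * e)
        = (e * e) * (y - y * (T * p * y + b0 * L)) * e := by noncomm_ring
    rw [this, he]
  have hce : c * e = c := by
    rw [hc]
    have : (e * (y - y * (T * p * y + b0 * L)) * e) * e
        = e * (y - y * (T * p * y + b0 * L)) * (e * e) := by noncomm_ring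
    rw [this, he]
  -- `1 - q ∈ I`
  have i1 : 1 - (p + e) ∈ I := by
    have : (1 - (p + e)) * W = 1 - (p + e) := by
      have h0 : (1 - (p + e)) * W = ((p + e) - (p + e) * (p + e)) * (y + (c' - c)) * (p + e)
          + (1 - (p + e) - ((p + e) - (p + e) * (p + e))) := by
        rw [hW]; noncomm_ring
      rw [h0, hqq]; simp
    rw [← this]
    exact I.mul_mem_left _ hWI
  -- `L e + L p ∈ I`
  have i2 : L * e + L * p ∈ I := by
    have : L * e + L * p = L - L * (1 - (p + e)) := by noncomm_ring
    rw [this]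
    exact I.sub_mem hLI (I.mul_mem_left _ i1)
  -- `p W`
  have i3 : p * y * p + p * y * e ∈ I := by
    have : p * W = p * y * p + p * y * e := by
      have h0 : p * W = (p * (p + e)) * y * (p + e) + (p * (p + e)) * (c' - c) * (p + e)
          + (p - p * (p + e)) := by
        rw [hW]; noncomm_ring
      rw [h0, hpq]
      have h2 : p * (c' - c) = 0 := by rw [mul_sub, hpc', hpc, sub_zero]
      rw [h2]
      noncomm_ring
    rw [← this]
    exact I.mul_mem_left _ hWI
  -- `p + (T p y + b0 L) e ∈ I`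
  have i4 : p + (T * p * y + b0 * L) * e ∈ I := by
    have h0 : p = T * (p * y * p) + b0 * (L * p) := by
      have h2 : (T * (p * y * p + (1 - p)) + b0 * L) * p = p := by rw [hU, one_mul]
      have h3 : (T * (p * y * p + (1 - p)) + b0 * L) * p
          = T * (p * y * (p * p)) + T * (p - p * p) + b0 * (L * p) := by noncomm_ring
      rw [h3, hp, sub_self, mul_zero, add_zero] at h2
      exact h2.symm
    have h4 : p + (T * p * y + b0 * L) * e
        = T * (p * y * p + p * y * e) + b0 * (L * e + L * p) := by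
      have h5 : T * (p * y * p + p * y * e) + b0 * (L * e + L * p)
          = (T * (p * y * p) + b0 * (L * p)) + (T * p * y + b0 * L) * e := by noncomm_ring
      rw [h5, ← h0]
    rw [h4]
    exact I.add_mem (I.mul_mem_left _ i3) (I.mul_mem_left _ i2)
  -- `e W`
  have i5 : e * y * p + e * y * e + (c' - c) ∈ I := by
    have : e * W = e * y * p + e * y * e + (c' - c) := by
      have h0 : e * W = (e * (p + e)) * y * (p + e) + (e * (p + e)) * (c' - c) * (p + e)
          + (e - e * (p + e)) := by
        rw [hW]; noncomm_ring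
      rw [h0, heq]
      have h2 : e * (c' - c) * (p + e) = c' - c := by
        have h3 : e * (c' - c) * (p + e) = (e * c') * p + (e * c') * e - ((e * c) * p + (e * c) * e) := by
          noncomm_ring
        rw [h3, hc', hec, hc'p, hcp, hc'e, hce]; simp
      rw [h2]
      noncomm_ring
    rw [← this]
    exact I.mul_mem_left _ hWI
  -- `c' ∈ I`
  have i6 : c' ∈ I := by
    have h0 : c' = (e * y * p + e * y * e + (c' - c))
        - e * y * (p + (T * p * y + b0 * L) * e) := by
      rw [hc]; noncomm_ring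
    rw [h0]
    exact I.sub_mem i5 (I.mul_mem_left _ i4)
  have i7 : e ∈ I := by
    rw [← h1]
    exact I.add_mem (I.mul_mem_left _ i6) (I.mul_mem_left _ hkI)
  have i8 : p ∈ I := by
    have : p = (p + (T * p * y + b0 * L) * e) - (T * p * y + b0 * L) * e := by abel
    rw [this]
    exact I.sub_mem i4 (I.mul_mem_left _ i7)
  have i9 : (1 : D) ∈ I := by
    have : (1 : D) = p + e + (1 - (p + e)) := by abel
    rw [this]
    exact I.add_mem (I.add_mem i8 i7) i1
  obtain ⟨A, z, hz, h2⟩ := Ideal.mem_span_insert.1 i9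
  obtain ⟨B, z', hz', h3⟩ := Ideal.mem_span_insert.1 hz
  obtain ⟨B', h4⟩ := Ideal.mem_span_singleton'.1 hz'
  refine ⟨A, B, B', ?_⟩
  rw [h2, h3, ← h4]
  abel

section
variable {M : Type u} [CStarAlgebra M] [PartialOrder M] [StarOrderedRing M]
variable {ν : Type} [Fintype ν] [DecidableEq ν]

theorem Ei_nonneg (i : ν) {l : M} (hl : 0 ≤ l) : 0 ≤ (H93SR.Ei i l : CStarMatrix ν ν M) := by
  obtain ⟨s, rfl⟩ := CStarAlgebra.nonneg_iff_eq_star_mul_self.1 hl
  have h : (H93SR.Ei i (star s * s) : CStarMatrix ν ν M)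
      = star (H93SR.Ei i s) * H93SR.Ei i s := by
    rw [H93SR.Ei_mul]
    congr 1
    exact map_star (H93SR.EiH (M := M) (ν := ν) i) s
  rw [h]
  exact star_mul_self_nonneg _

/-- The column `e_i`. -/
def colE (i : ν) : CStarMatrix ν Unit M := CStarMatrix.ofMatrix fun k _ => if k = i then 1 else 0

theorem colE_mul (i : ν) (l : M) :
    (colE i : CStarMatrix ν Unit M) * one1 l * (colE i : CStarMatrix ν Unit M).conjTranspose
      = H93SR.Ei i l := by
  ext k m
  rw [CStarMatrix.mul_apply]
  simp only [CStarMatrix.mul_apply, Finset.univ_unique, Finset.sum_singleton]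
  rw [CStarMatrix.conjTranspose_apply, H93SR.Ei_apply]
  show (if k = i then (1 : M) else 0) * l * star (if m = i then (1 : M) else 0) = _
  by_cases hk : k = i
  · by_cases hm : m = i
    · rw [if_pos hk, if_pos hm, if_pos ⟨hk.symm, hm.symm⟩]; simp
    · rw [if_pos hk, if_neg hm, if_neg (fun h => hm h.2.symm)]; simp
  · have h2 : ¬ (i = k ∧ i = m) := fun h => hk h.1.symm
    rw [if_neg hk, if_neg h2]; simp

theorem dim_Ei_le (hMono : QMonoP.{u}) (σ : QTrace M) (i : ν) {l : M} (hl : 0 ≤ l)
    (hl1 : 0 ≤ (one1 l : CStarMatrix Unit Unit M)) :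
    σ.dim (H93SR.Ei i l : CStarMatrix ν ν M) ≤ σ.dim (one1 l) := by
  refine hMono M σ ν Unit _ _ (Ei_nonneg i hl) hl1 ?_
  intro ε hε
  refine ⟨colE i, ?_⟩
  rw [colE_mul, sub_self, norm_zero]
  exact hε

theorem one1_nonneg' {l : M} (hl : 0 ≤ l) : 0 ≤ (one1 l : CStarMatrix Unit Unit M) := by
  have h := Ei_nonneg (ν := Unit) () hl
  have e : (H93SR.Ei () l : CStarMatrix Unit Unit M) = one1 l := by
    ext k m
    rw [H93SR.Ei_apply]
    simp [one1]
  rwa [e] at h

end

end H51AR

theorem matASR_51 (hMT : MatTP.{u}) (hLc : LcP.{u}) (hD : DimP.{u}) (hMono : QMonoP.{u}) :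
    MatASRP.{u} := by
  intro M _ _ _ hM ν _ _
  have claim : ∀ s : Finset ν, ∀ (x : CStarMatrix ν ν M) (η θ : ℝ), 0 < η → 0 < θ →
      ∃ y L : CStarMatrix ν ν M, ‖x - y‖ ≤ η ∧ 0 ≤ L ∧
        LI ((∑ i ∈ s, H93SR.Ei i (1 : M)) * y * (∑ i ∈ s, H93SR.Ei i (1 : M))
          + (1 - ∑ i ∈ s, H93SR.Ei i (1 : M))) L ∧ SmT θ L := by
    intro s
    induction s using Finset.induction_on with
    | empty =>
      intro x η θ hη hθ
      refine ⟨x, 0, by simpa using hη.le, le_rfl, ⟨1, 0, by simp⟩, ?_⟩
      intro φ σ _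
      rw [(hD (CStarMatrix ν ν M) σ).1]
      exact hθ.le
    | insert i s hi ih =>
      intro x η θ hη hθ
      obtain ⟨y, L, hy, hL0, ⟨T, b0, hU⟩, hSm⟩ := ih x (η / 2) (θ / 2) (by positivity) (by positivity)
      have hort : ∀ k l : ν, k ≠ l → H93SR.Ei k (1 : M) * H93SR.Ei l 1 = 0 := by
        intro k l hkl
        have h : (Matrix.single k k (1 : M) : Matrix ν ν M) * (Matrix.single l l (1 : M)) = 0 := by
          rw [Matrix.single_mul_single_of_ne]
          exact hkl
        exact h
      have hee : ∀ k : ν, H93SR.Ei k (1 : M) * H93SR.Ei k 1 = H93SR.Ei k 1 := by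
        intro k
        rw [← H93SR.Ei_mul, one_mul]
      obtain ⟨p, hpdef⟩ : ∃ p, p = ∑ i ∈ s, H93SR.Ei i (1 : M) := ⟨_, rfl⟩
      have hpp : p * p = p := by
        rw [hpdef, Finset.sum_mul]
        apply Finset.sum_congr rfl
        intro k hk
        rw [Finset.mul_sum, Finset.sum_eq_single k (fun l _ hl => hort k l (Ne.symm hl))
          (fun h => absurd hk h)]
        exact hee k
      have hpe : p * H93SR.Ei i 1 = 0 := by
        rw [hpdef, Finset.sum_mul]
        apply Finset.sum_eq_zero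
        intro k hk
        exact hort k i (fun h => hi (h ▸ hk))
      have hep : H93SR.Ei i 1 * p = 0 := by
        rw [hpdef, Finset.mul_sum]
        apply Finset.sum_eq_zero
        intro k hk
        exact hort i k (fun h => hi (h ▸ hk))
      rw [← hpdef] at hU
      obtain ⟨d, hd⟩ : ∃ d : M, d = (y - y * (T * p * y + b0 * L)) i i := ⟨_, rfl⟩
      obtain ⟨d', l, hd', hl0, ⟨ad, bd, hadl⟩, hSml⟩ := hM d (η / 2) (θ / 2) (by positivity)
        (by positivity)
      obtain ⟨A, B, B', hAB⟩ := H51AR.step p (H93SR.Ei i 1) y T b0 L (H93SR.Ei i d)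
        (H93SR.Ei i d') (H93SR.Ei i l) (H93SR.Ei i ad) (H93SR.Ei i bd) hpp (hee i) hpe hep hU
        (by rw [H93SR.Ei_corner, hd]) (by rw [← H93SR.Ei_mul, one_mul])
        (by rw [← H93SR.Ei_mul, mul_one])
        (by rw [← H93SR.Ei_mul, ← H93SR.Ei_mul, ← H93SR.Ei_add, hadl])
      have hEl0 : 0 ≤ (H93SR.Ei i l : CStarMatrix ν ν M) := H51AR.Ei_nonneg i hl0
      have hlc := hLc (CStarMatrix ν ν M) 2
        ((p + H93SR.Ei i 1) * (y + (H93SR.Ei i d' - H93SR.Ei i d)) * (p + H93SR.Ei i 1)
          + (1 - (p + H93SR.Ei i 1))) A ![B, B'] ![L, H93SR.Ei i l]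
        (by
          rw [Fin.sum_univ_two]
          simp only [Matrix.cons_val_zero, Matrix.cons_val_one]
          rw [← add_assoc]
          exact hAB)
      refine ⟨y + (H93SR.Ei i d' - H93SR.Ei i d), ∑ k : Fin 2, sq ((![L, H93SR.Ei i l] :
        Fin 2 → CStarMatrix ν ν M) k), ?_, hlc.1, ?_, ?_⟩
      · have e1 : H93SR.Ei i d' - H93SR.Ei i d = (H93SR.Ei i (d' - d) : CStarMatrix ν ν M) := by
          rw [sub_eq_iff_eq_add, ← H93SR.Ei_add, sub_add_cancel]
        have e2 : ‖(H93SR.Ei i d' - H93SR.Ei i d : CStarMatrix ν ν M)‖ ≤ η / 2 := by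
          rw [e1]
          refine (H93SR.norm_Ei_le _ _).trans ?_
          rw [norm_sub_rev]
          exact hd'
        calc _ = ‖(x - y) - (H93SR.Ei i d' - H93SR.Ei i d)‖ := by
              congr 1; abel
          _ ≤ ‖x - y‖ + ‖(H93SR.Ei i d' - H93SR.Ei i d : CStarMatrix ν ν M)‖ := norm_sub_le _ _
          _ ≤ η / 2 + η / 2 := by linarith
          _ = η := by ring
      · rw [Finset.sum_insert hi, ← hpdef, add_comm (H93SR.Ei i (1 : M)) p]
        exact hlc.2
      · intro φ' σ' hφσ
        haveI : Nonempty ν := ⟨i⟩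
        obtain ⟨d1, d2, d3, -⟩ := hD (CStarMatrix ν ν M) σ'
        obtain ⟨φ, σ, hq, -, hdim⟩ := (hMT M ν).1 φ' σ' hφσ
        have b1 : σ'.dim (one1 (sq L)) ≤ θ / 2 := by
          have := d3 L 1 1 hL0
          rw [one_mul, mul_one] at this
          exact this.trans (hSm φ' σ' hφσ)
        have b2 : σ'.dim (one1 (sq (H93SR.Ei i l : CStarMatrix ν ν M))) ≤ θ / 2 := by
          have h1 := d3 (H93SR.Ei i l) 1 1 hEl0
          rw [one_mul, mul_one] at h1
          refine h1.trans ?_
          rw [hdim _ hEl0]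
          have h2 := H51AR.dim_Ei_le hMono σ i hl0 (H51AR.one1_nonneg' hl0)
          have h3 := hSml φ σ hq
          have hc : (1 : ℝ) ≤ Fintype.card ν := by
            exact_mod_cast Fintype.card_pos
          rw [div_le_iff₀ (by linarith)]
          nlinarith
        have b3 := d2 2 (fun k => sq ((![L, H93SR.Ei i l] : Fin 2 → CStarMatrix ν ν M) k))
          (fun k => star_mul_self_nonneg _)
        refine b3.trans ?_
        rw [Fin.sum_univ_two]
        simp only [Matrix.cons_val_zero, Matrix.cons_val_one]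
        linarith
  intro x η θ hη hθ
  obtain ⟨y, L, hy, hL, hu, hS⟩ := claim Finset.univ x η θ hη hθ
  refine ⟨y, L, hy, hL, ?_, hS⟩
  have hone : (∑ i : ν, H93SR.Ei i (1 : M)) = 1 := by
    ext k l
    have hs : ∀ (f : ν → CStarMatrix ν ν M), (∑ k, f k) k l = ∑ i, f i k l := by
      intro f
      exact Matrix.sum_apply _ _ _ _
    rw [hs, CStarMatrix.one_apply]
    simp only [H93SR.Ei_apply]
    by_cases h : k = l
    · subst h
      simp
    · rw [if_neg h]
      apply Finset.sum_eq_zero
      intro i _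
      rw [if_neg]
      rintro ⟨rfl, h2⟩
      exact h h2
  rw [hone] at hu
  simpa using hu

end RC
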